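import Pool.Agent.WittPrimes.Theta

/-!
# The generic relation leads to a contradiction
-/

namespace PRI84

open Pool.WittPrimes Polynomial

section fin

variable {k A U I ι : Type*} [Field k] [Ring A] [Algebra k A] [Ring U] [Algebra k U]

/-- the series `1/x` -/
noncomputable def T (U : Type*) [Ring U] : HahnSeries ℤ U := HahnSeries.single (-1 : ℤ) (1 : U)

theorem T_comm (f : HahnSeries ℤ U) : T U * f = f * T U := single_comm _ f

theorem aeval_comm (x : k[X]) (f : HahnSeries ℤ U) :
    aeval (T U) x * f = f * aeval (T U) x := by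
  have h : ∀ j : ℕ, (T U) ^ j * f = f * (T U) ^ j := by
    intro j
    exact (Commute.pow_left (show Commute (T U) f from T_comm f) j).eq
  rw [aeval_eq_sum_range, Finset.sum_mul, Finset.mul_sum]
  refine Finset.sum_congr rfl fun j _ => ?_
  rw [smul_mul_assoc, mul_smul_comm, h]

theorem cmap_map (x : k[X]) : cmap k U (x.map (algebraMap k U)) = aeval (T U) x := by
  rw [cmap, Polynomial.eval₂AlgHom_apply, Polynomial.eval₂_map, Polynomial.aeval_def]
  congr 1

theorem coeff_mul_mem (N : Ideal U) (f g : HahnSeries ℤ U) (hg : ∀ n, g.coeff n ∈ N) (n : ℤ) :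
    (f * g).coeff n ∈ N := by
  rw [HahnSeries.coeff_mul]
  exact N.sum_mem fun ij _ => N.mul_mem_left _ (hg _)

theorem cmap_mem (N : Ideal U) (p : U[X]) (h : ∀ j, p.coeff j ∈ N) (n : ℤ) :
    (cmap k U p).coeff n ∈ N := by
  by_cases hn : 0 < n
  · rw [cmap_coeff_pos _ hn]; exact N.zero_mem
  · obtain ⟨j, rfl⟩ : ∃ j : ℕ, n = -(j : ℤ) := ⟨(-n).toNat, by omega⟩
    rw [cmap_coeff]
    exact h j

theorem fin [Fintype ι] [DecidableEq I] (Θ : A →ₐ[k] HahnSeries ℤ U) (i : U → A)
    (Ps : U → U[X]) (hi : ∀ w, Θ (i w) = cmap k U (Ps w)) (N : Ideal U) (P : TwoSidedIdeal A)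
    (hP : ∀ u ∈ P, ∀ n, (Θ u).coeff n ∈ N) (κ : ι → I) (s : I → A) (t : ι → U) (q : k[X])
    (x : ι → k[X])
    (h1 : ∀ n, q.coeff n • (1 : A) - ∑ p, (x p).coeff n • (s (κ p) * i (t p)) ∈ P)
    (h2 : ∀ (a : I) (n : ℕ), (∑ p, if κ p = a then ∑ jl ∈ Finset.HasAntidiagonal.antidiagonal n,
      (x p).coeff jl.1 • (Ps (t p)).coeff jl.2 else 0) ∈ N) (n : ℕ) :
    q.coeff n • (1 : U) ∈ N := by
  classical
  -- a common bound for the degrees
  obtain ⟨M, hMq, hMx⟩ : ∃ M : ℕ, q.natDegree < M ∧ ∀ p, (x p).natDegree < M := by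
    refine ⟨q.natDegree + 1 + ∑ p, ((x p).natDegree + 1), by omega, fun p => ?_⟩
    have := Finset.single_le_sum (f := fun p => (x p).natDegree + 1) (fun _ _ => Nat.zero_le _)
      (Finset.mem_univ p)
    omega
  -- claim 1
  have c1 : ∀ m : ℤ, (aeval (T U) q - ∑ p, aeval (T U) (x p) * Θ (s (κ p) * i (t p))).coeff m
      ∈ N := by
    have e : aeval (T U) q - ∑ p, aeval (T U) (x p) * Θ (s (κ p) * i (t p)) =
        ∑ j ∈ Finset.range M, (T U) ^ j *
          Θ (q.coeff j • (1 : A) - ∑ p, (x p).coeff j • (s (κ p) * i (t p))) := by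
      have e1 : ∀ p, aeval (T U) (x p) * Θ (s (κ p) * i (t p)) =
          ∑ j ∈ Finset.range M, (T U) ^ j * ((x p).coeff j • Θ (s (κ p) * i (t p))) := by
        intro p
        rw [aeval_eq_sum_range' (hMx p), Finset.sum_mul]
        refine Finset.sum_congr rfl fun j _ => ?_
        rw [smul_mul_assoc, mul_smul_comm]
      rw [Finset.sum_congr rfl fun p _ => e1 p, Finset.sum_comm, aeval_eq_sum_range' hMq,
        ← Finset.sum_sub_distrib]
      refine Finset.sum_congr rfl fun j _ => ?_
      rw [map_sub, map_smul, map_one, map_sum, mul_sub, mul_smul_comm, mul_one, Finset.mul_sum]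
      congr 1
      refine Finset.sum_congr rfl fun p _ => ?_
      rw [map_smul]
    intro m
    rw [e]
    have : ∀ (F : Finset ℕ), (∑ j ∈ F, (T U) ^ j *
          Θ (q.coeff j • (1 : A) - ∑ p, (x p).coeff j • (s (κ p) * i (t p)))).coeff m ∈ N := by
      intro F
      induction F using Finset.induction_on with
      | empty => rw [Finset.sum_empty, HahnSeries.coeff_zero]; exact N.zero_mem
      | insert a F ha ih =>
        rw [Finset.sum_insert ha, HahnSeries.coeff_add]
        exact N.add_mem (coeff_mul_mem N _ _ (hP _ (h1 a)) m) ih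
    exact this _
  -- claim 2
  have c2 : ∀ m : ℤ, (∑ p, aeval (T U) (x p) * Θ (s (κ p) * i (t p))).coeff m ∈ N := by
    have e : ∑ p, aeval (T U) (x p) * Θ (s (κ p) * i (t p)) =
        ∑ a ∈ Finset.univ.image κ, Θ (s a) *
          cmap k U (∑ p, if κ p = a then (x p).map (algebraMap k U) * Ps (t p) else 0) := by
      have e2 : ∀ a, Θ (s a) *
          cmap k U (∑ p, if κ p = a then (x p).map (algebraMap k U) * Ps (t p) else 0) =
          ∑ p, if κ p = a then aeval (T U) (x p) * Θ (s (κ p) * i (t p)) else 0 := by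
        intro a
        rw [map_sum, Finset.mul_sum]
        refine Finset.sum_congr rfl fun p _ => ?_
        by_cases hpa : κ p = a
        · rw [if_pos hpa, if_pos hpa, map_mul, cmap_map, ← hi, ← hpa, map_mul, ← mul_assoc,
            ← aeval_comm, mul_assoc]
        · rw [if_neg hpa, if_neg hpa, map_zero, mul_zero]
      rw [Finset.sum_congr rfl fun a _ => e2 a, Finset.sum_comm]
      refine Finset.sum_congr rfl fun p _ => ?_
      rw [Finset.sum_ite_eq, if_pos (Finset.mem_image_of_mem κ (Finset.mem_univ p))]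
    intro m
    rw [e]
    have : ∀ (F : Finset I), (∑ a ∈ F, Θ (s a) *
          cmap k U (∑ p, if κ p = a then (x p).map (algebraMap k U) * Ps (t p) else 0)).coeff m
          ∈ N := by
      intro F
      induction F using Finset.induction_on with
      | empty => rw [Finset.sum_empty, HahnSeries.coeff_zero]; exact N.zero_mem
      | insert a F ha ih =>
        rw [Finset.sum_insert ha, HahnSeries.coeff_add]
        refine N.add_mem (coeff_mul_mem N _ _ (cmap_mem N _ fun j => ?_) m) ih
        have h3 := h2 a j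
        rw [finsetSum_coeff]
        convert h3 using 2 with p
        by_cases hpa : κ p = a
        · rw [if_pos hpa, if_pos hpa, coeff_mul]
          refine Finset.sum_congr rfl fun jl _ => ?_
          rw [coeff_map, Algebra.smul_def]
        · rw [if_neg hpa, if_neg hpa, coeff_zero]
    exact this _
  have c3 : (aeval (T U) q).coeff (-(n : ℤ)) ∈ N := by
    have := N.add_mem (c1 (-(n : ℤ))) (c2 (-(n : ℤ)))
    rwa [← HahnSeries.coeff_add, sub_add_cancel] at this
  rw [← cmap_map, cmap_coeff, coeff_map, Algebra.algebraMap_eq_smul_one] at c3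
  exact c3

end fin

end PRI84
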