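import Pool.Agent.PRI84.Fin
import Pool.Agent.PRI65.Th
import Pool.Agent.PRI64.Wd
import Pool.Agent.PRI98.Gen
import Pool.Agent.LA53.Rel
import Pool.Agent.WittPrimes.Main

/-!
# The prime ideal of `U(L)` over a primitive ideal of `U(S)` is primitive
-/

namespace PRI84

open Pool.WittPrimes Polynomial

attribute [local instance 100] LieRing.ofAssociativeRing

section core

variable {A : Type*} [Ring A]

/-- A two-sided ideal `P` of a ring `A` is (left) primitive if it is the annihilator
`{a | a A ⊆ M}` of the simple left module `A / M` for a maximal left ideal `M`. -/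
def IsPrimitiveI (P : TwoSidedIdeal A) : Prop :=
  ∃ M : Ideal A, M.IsMaximal ∧ ∀ a, a ∈ P ↔ ∀ x, a * x ∈ M

/-- the annihilator of `A / M` -/
def core (M : Ideal A) : TwoSidedIdeal A :=
  TwoSidedIdeal.mk' {a | ∀ x, a * x ∈ M}
    (fun x => by rw [zero_mul]; exact M.zero_mem)
    (fun {x y} hx hy z => by rw [add_mul]; exact M.add_mem (hx z) (hy z))
    (fun {x} hx z => by rw [neg_mul]; exact M.neg_mem (hx z))
    (fun {x y} hy z => by rw [mul_assoc]; exact M.mul_mem_left _ (hy z))
    (fun {x y} hx z => by rw [mul_assoc]; exact hx _)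

theorem mem_core (M : Ideal A) (a : A) : a ∈ core M ↔ ∀ x, a * x ∈ M := by
  rw [core, TwoSidedIdeal.mem_mk']
  rfl

theorem one_notMem (M : Ideal A) (hM : M.IsMaximal) : (1 : A) ∉ M :=
  (Ideal.isMaximal_iff.mp hM).1

theorem core_prime (M : Ideal A) (hM : M.IsMaximal) : IsPrimeI (core M) := by
  refine ⟨fun h => ?_, fun a b h => ?_⟩
  · have h1 : (1 : A) ∈ core M := by rw [h]; trivial
    have h2 := (mem_core M 1).mp h1 1
    rw [one_mul] at h2
    exact one_notMem M hM h2
  · by_contra hcon
    push Not at hcon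
    obtain ⟨ha, hb⟩ := hcon
    rw [mem_core] at hb
    push Not at hb
    obtain ⟨x, hx⟩ := hb
    apply ha
    rw [mem_core]
    intro y
    have h1 : (1 : A) ∈ M ⊔ Ideal.span {b * x} :=
      (Ideal.isMaximal_iff.mp hM).2 _ (b * x) le_sup_left hx
        (Ideal.mem_sup_right (Ideal.subset_span rfl))
    obtain ⟨m, hm, n, hn, hmn⟩ := Submodule.mem_sup.mp h1
    obtain ⟨u, rfl⟩ := Ideal.mem_span_singleton'.mp hn
    have h2 : a * y = (a * y) * m + (a * (y * u) * b) * x := by
      calc a * y = (a * y) * (m + u * (b * x)) := by rw [hmn, mul_one]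
        _ = _ := by rw [mul_add]; simp only [mul_assoc]
    rw [h2]
    exact M.add_mem (M.mul_mem_left _ hm) ((mem_core M _).mp (h (y * u)) x)

theorem isPrimitiveI_iff (P : TwoSidedIdeal A) :
    IsPrimitiveI P ↔ ∃ M : Ideal A, M.IsMaximal ∧ P = core M := by
  constructor
  · rintro ⟨M, hM, h⟩
    refine ⟨M, hM, ?_⟩
    ext a
    rw [mem_core, h]
  · rintro ⟨M, hM, rfl⟩
    exact ⟨M, hM, mem_core M⟩

theorem IsPrimitiveI.prime {P : TwoSidedIdeal A} (h : IsPrimitiveI P) : IsPrimeI P := by
  obtain ⟨M, hM, rfl⟩ := (isPrimitiveI_iff P).mp h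
  exact core_prime M hM

end core

/-- pigeonhole -/
theorem fiber {K α : Type*} [Uncountable K] [Countable α] (f : K → α) :
    ∃ a, {c | f c = a}.Infinite := by
  by_contra h
  push Not at h
  have h1 : (Set.univ : Set K) = ⋃ a, {c | f c = a} := by
    ext c
    simp
  have h2 : (Set.univ : Set K).Countable := by
    rw [h1]
    exact Set.countable_iUnion fun a => (h a).countable
  exact not_countable (Set.countable_univ_iff.mp h2)

section main

variable {k L : Type*} [Field k] [CharZero k] [LieRing L] [LieAlgebra k L]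
variable (D : WittData k L) (S : LieSubalgebra k L)
    (hS : S.toSubmodule = Submodule.span k (D.b '' {n | -1 ≤ n}))

theorem th_surj (c : k) : Function.Surjective (PRI65.th D S hS c) := by
  intro w
  refine ⟨PRI65.th D S hS (-c) w, ?_⟩
  have := PRI65.th_neg D S hS (-c) w
  rwa [neg_neg] at this

include D hS in
/-- **Main theorem**, `k` uncountable: if the restriction of the prime ideal `P` is primitive, so is
`P`. -/
theorem prim_of_restrict [Uncountable k] (P : TwoSidedIdeal (UniversalEnvelopingAlgebra k L))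
    (hP : IsPrimeI P) (hQ : IsPrimitiveI (P.comap (iotaU S))) : IsPrimitiveI P := by
  classical
  obtain ⟨N, hN, hQN⟩ := hQ
  have hmax : ∀ c, (Ideal.comap (PRI65.th D S hS c) N).IsMaximal := fun c =>
    Ideal.comap_isMaximal_of_surjective (PRI65.th D S hS c) (th_surj D S hS c)
  by_cases hcase : ∃ c : k, (1 : UniversalEnvelopingAlgebra k L) ∉ Ideal.span
      ((iotaU S '' ((Ideal.comap (PRI65.th D S hS c) N : Ideal _) : Set _)) ∪ {p | p ∈ P})
  · obtain ⟨c, hc⟩ := hcase
    obtain ⟨M, hM, hle⟩ := Ideal.exists_le_maximal (Ideal.span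
      ((iotaU S '' ((Ideal.comap (PRI65.th D S hS c) N : Ideal _) : Set _)) ∪ {p | p ∈ P}))
      (fun h => hc (by rw [h]; trivial))
    have hcm : ∀ w, iotaU S w ∈ M → PRI65.th D S hS c w ∈ N := by
      intro w hw
      by_contra hn
      have h1 := (Ideal.isMaximal_iff.mp (hmax c)).2 (Ideal.comap (iotaU S) M) w
        (fun y hy => hle (Ideal.subset_span (Or.inl ⟨y, hy, rfl⟩))) hn hw
      have h2 : iotaU S 1 ∈ M := h1
      rw [map_one] at h2
      exact one_notMem M hM h2
    have hcore : core M ≤ P := by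
      refine (main D S hS).2.2 _ _ (core_prime M hM) hP ?_
      intro w hw
      rw [hQN]
      intro x
      have h1 : w * x ∈ (core M).comap (iotaU S) := TwoSidedIdeal.mul_mem_right _ _ _ hw
      have h2 := PRI65.th_mem D S hS _ (-c) _ h1
      rw [TwoSidedIdeal.mem_comap, mem_core] at h2
      have h3 := h2 1
      rw [mul_one] at h3
      have h4 := hcm _ h3
      have h5 := PRI65.th_neg D S hS (-c) (w * x)
      rw [neg_neg] at h5
      rwa [h5] at h4
    exact ⟨M, hM, fun a => ⟨fun ha x =>
      hle (Ideal.subset_span (Or.inr (P.mul_mem_right _ _ ha))),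
      fun h => hcore ((mem_core M a).mpr h)⟩⟩
  · push Not at hcase
    exfalso
    have key := fun c => PRI98.gen_form (iotaU S)
      (PRI64.wrd fun n => UniversalEnvelopingAlgebra.ι k (D.b n)) (PRI64.wrd (eS D S hS))
      (PRI64.wrd_L D) (PRI64.wrd_S D S hS) P
      ((Ideal.comap (PRI65.th D S hS c) N).restrictScalars k) (hcase c)
    choose z hz1 hz2 using key
    obtain ⟨F, hF⟩ := fiber fun c => (z c).support
    obtain ⟨q, hq0, x, hx1, hx2⟩ := LA53.rel (tsiSub P) (N.restrictScalars k)
      (fun p : F => p.1.1) (1 : UniversalEnvelopingAlgebra k L)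
      (fun p : F => PRI64.wrd (fun n => UniversalEnvelopingAlgebra.ι k (D.b n)) p.1.1 *
        iotaU S (PRI64.wrd (eS D S hS) p.1.2))
      (fun p : F => Psi D S hS (PRI64.wrd (eS D S hS) p.1.2)) _ hF (by
        rintro c rfl
        refine ⟨fun p => z c p.1, ?_, fun a => ?_⟩
        · have h1 := hz1 c
          rw [Finsupp.sum, ← Finset.sum_coe_sort] at h1
          exact h1
        · have h1 := hz2 c a
          rw [Finsupp.sum, ← Finset.sum_coe_sort] at h1
          have h2 : PRI65.th D S hS c (∑ p : (z c).support, if p.1.1 = a then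
              z c p.1 • PRI64.wrd (eS D S hS) p.1.2 else 0) ∈ N := h1
          rw [map_sum] at h2
          change _ ∈ N
          convert h2 using 2 with p
          by_cases hpa : p.1.1 = a
          · rw [if_pos hpa, if_pos hpa, map_smul, PRI65.th_eq]
          · rw [if_neg hpa, if_neg hpa, map_zero])
    have hfin := fin (Theta D S hS) (iotaU S) (Psi D S hS) (fun w => (cmap_Psi D S hS w).symm) N P
      (by
        intro u hu n
        have hPQ : P = PQ D S hS (P.comap (iotaU S)) := by
          obtain ⟨h1, h2⟩ := PQ_spec D S hS (P.comap (iotaU S)) (prime_restrict D S hS P hP)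
          refine prime_inj D S hS P _ hP h1 ?_
          ext w
          rw [TwoSidedIdeal.mem_comap, TwoSidedIdeal.mem_comap, h2, TwoSidedIdeal.mem_comap]
        rw [hPQ] at hu
        have h1 := (mem_PQ D S hS _ u).mp hu n
        have h2 := (hQN _).mp h1 1
        rwa [mul_one] at h2)
      (fun p : F => p.1.1) (PRI64.wrd fun n => UniversalEnvelopingAlgebra.ι k (D.b n))
      (fun p : F => PRI64.wrd (eS D S hS) p.1.2) q x hx1 hx2
    apply hq0
    ext n
    rw [coeff_zero]
    by_contra hn
    have h1 := N.mul_mem_left (algebraMap k _ (q.coeff n)⁻¹) (hfin n)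
    rw [← Algebra.smul_def, smul_smul, inv_mul_cancel₀ hn, one_smul] at h1
    exact one_notMem N hN h1

end main

end PRI84
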